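import Pool.Agent.Helper46.Stiff.Main

open MeasureTheory Set
open scoped ENNReal
open Pool.Agent.Helper46.Stiff

namespace Pool.Agent.Results.MP_2681e5_an.FullLength

/-- Length saturation does occur in the relaxed connected stiffener problem: for every bounded
convex domain `Ω` (in particular for a disc or a square, which are bounded Lipschitz domains) and
every sufficiently large stiffness `m` there are a length budget `L > 0` and a maximiser `μ` of (P)
whose support `S` is connected and has length exactly `L`. -/
theorem result (Ω : Set Plane) (hopen : IsOpen Ω) (hconv : Convex ℝ Ω) (hne : Ω.Nonempty)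
    (hb : Bornology.IsBounded Ω) :
    ∃ m₀ : ℝ, 0 < m₀ ∧ ∀ m : ℝ, m₀ ≤ m → ∃ L : ℝ, 0 < L ∧ ∃ μ : Measure Plane,
      IsMaximiser Ω m L μ ∧ IsConnected μ.support ∧
      (μH[1] : Measure Plane) μ.support = ENNReal.ofReal L :=
  main hconv hopen hne hb

end Pool.Agent.Results.MP_2681e5_an.FullLength
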